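import Mathlib

open Filter Topology

namespace Pool.Agent.P.MP_cc4673_an

/-- If `(f, α)` is an ordered L-pair then `f` is bounded on every fibre of `α`. -/
theorem bounded_on_fibre {E : Type*} [NormedAddCommGroup E] [ProperSpace E]
    (f α : E → ℂ) (hf : Continuous f)
    (hpair : ∀ z : ℕ → E, Tendsto (fun k => ‖z k‖) atTop atTop →
      (∀ K : Set ℂ, IsCompact K → K ⊆ Set.range f → {k : ℕ | f (z k) ∈ K}.Finite) →
      (∀ K : Set ℂ, IsCompact K → K ⊆ Set.range α → {k : ℕ | α (z k) ∈ K}.Finite))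
    (a : ℂ) : ∃ M : ℝ, ∀ z, α z = a → ‖f z‖ ≤ M := by
  by_contra hcon
  push Not at hcon
  choose z hz hz' using fun k : ℕ => hcon (k : ℝ)
  have hlim : Tendsto (fun k => ‖z k‖) atTop atTop := by
    rw [tendsto_atTop]
    intro R
    obtain ⟨M, hM⟩ := (isCompact_closedBall (0 : E) R).exists_bound_of_continuousOn
      hf.continuousOn
    obtain ⟨N, hN⟩ := exists_nat_ge M
    filter_upwards [eventually_ge_atTop N] with k hk
    by_contra hlt
    push Not at hlt
    have h1 := hM (z k) (by simpa using hlt.le)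
    have h2 := hz' k
    have h3 : (N : ℝ) ≤ k := by exact_mod_cast hk
    linarith
  have hL : ∀ K : Set ℂ, IsCompact K → K ⊆ Set.range f → {k : ℕ | f (z k) ∈ K}.Finite := by
    intro K hK _
    obtain ⟨M, hM⟩ := hK.isBounded.exists_norm_le
    obtain ⟨N, hN⟩ := exists_nat_ge M
    refine (Set.finite_Iio N).subset ?_
    intro k hk
    have h1 := hM _ hk
    have h2 := hz' k
    have : (k : ℝ) < N := by linarith
    exact_mod_cast this
  have := hpair z hlim hL {a} isCompact_singleton (by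
    rintro _ rfl
    exact ⟨z 0, hz 0⟩)
  apply Set.infinite_univ (α := ℕ)
  refine this.subset ?_
  intro k _
  simp [hz k]

theorem diff_pair {u v : ℂ → ℂ} (hu : Differentiable ℂ u) (hv : Differentiable ℂ v) :
    Differentiable ℂ (fun w => (!₂[u w, v w] : EuclideanSpace ℂ (Fin 2))) := by
  rw [differentiable_euclidean]
  intro i
  fin_cases i
  · simpa using hu
  · simpa using hv

theorem eta (z : EuclideanSpace ℂ (Fin 2)) : z = !₂[z 0, z 1] := by
  ext i
  fin_cases i <;> simp

/-- An entire function on `ℂ²` bounded on every fibre of `z₀ z₁` factors through `z₀ z₁`. -/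
theorem factor (f : EuclideanSpace ℂ (Fin 2) → ℂ) (hf : Differentiable ℂ f)
    (hb : ∀ a : ℂ, ∃ M : ℝ, ∀ z : EuclideanSpace ℂ (Fin 2), z 0 * z 1 = a → ‖f z‖ ≤ M)
    (z : EuclideanSpace ℂ (Fin 2)) : f z = f !₂[z 0 * z 1, 1] := by
  have key : ∀ (a : ℂ) (u v : ℂ → ℂ), Differentiable ℂ u → Differentiable ℂ v →
      (∀ w, u w * v w = a) → ∀ w w', f !₂[u w, v w] = f !₂[u w', v w'] := by
    intro a u v hu hv huv w w'
    obtain ⟨M, hM⟩ := hb a
    refine (hf.comp (diff_pair hu hv)).apply_eq_apply_of_bounded ?_ w w'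
    rw [isBounded_iff_forall_norm_le]
    refine ⟨M, ?_⟩
    rintro _ ⟨t, rfl⟩
    exact hM _ (by simpa using huv t)
  by_cases h1 : z 1 = 0
  · have e1 := key 0 (fun w => w) (fun _ => 0) differentiable_id (differentiable_const _)
      (by simp) (z 0) 0
    have e2 := key 0 (fun _ => 0) (fun w => w) (differentiable_const _) differentiable_id
      (by simp) 0 1
    rw [eta z]
    simp only [h1] at *
    simpa using e1.trans e2
  · have e := key (z 0 * z 1) (fun w => z 0 * z 1 * Complex.exp (-w)) (fun w => Complex.exp w)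
      (by fun_prop) (by fun_prop)
      (by
        intro w
        rw [mul_assoc, ← Complex.exp_add]
        simp) (Complex.log (z 1)) 0
    simp only [Complex.exp_neg, Complex.exp_log h1, Complex.exp_zero, inv_one, mul_one] at e
    rw [mul_assoc, mul_inv_cancel₀ h1, mul_one] at e
    rw [← e]
    exact congrArg f (eta z)

/-- `z₀ z₁` is not the first component of an injective holomorphic map of `ℂ²`. -/
theorem not_component (Φ : EuclideanSpace ℂ (Fin 2) → EuclideanSpace ℂ (Fin 2))
    (hΦ : Differentiable ℂ Φ) (hinj : Function.Injective Φ)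
    (h0 : ∀ z, Φ z 0 = z 0 * z 1) : False := by
  have hc : Differentiable ℂ (fun z => Φ z 1) := (differentiable_euclidean.1 hΦ) 1
  set g₁ : ℂ → ℂ := fun w => Φ !₂[w, 0] 1 with hg₁
  set g₂ : ℂ → ℂ := fun w => Φ !₂[0, w] 1 with hg₂
  have d₁ : Differentiable ℂ g₁ :=
    hc.comp (diff_pair differentiable_id (differentiable_const _))
  have d₂ : Differentiable ℂ g₂ :=
    hc.comp (diff_pair (differentiable_const _) differentiable_id)
  have hmeet : ∀ w w', g₁ w = g₂ w' → w' = 0 := by
    intro w w' h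
    have : Φ !₂[w, 0] = Φ !₂[0, w'] := by
      rw [eta (Φ !₂[w, 0]), eta (Φ !₂[0, w']), h0, h0]
      simp only [hg₁, hg₂] at h
      rw [h]
      simp
    have := congrArg (fun z : EuclideanSpace ℂ (Fin 2) => z 1) (hinj this)
    simpa using this.symm
  have hopen : IsOpenMap g₁ := by
    have han : AnalyticOnNhd ℂ g₁ Set.univ := fun w _ => d₁.analyticAt w
    rcases han.is_constant_or_isOpenMap with ⟨c, hc'⟩ | h
    · exfalso
      have : Φ !₂[0, 0] = Φ !₂[1, 0] := by
        rw [eta (Φ !₂[0, 0]), eta (Φ !₂[1, 0]), h0, h0]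
        have e0 := hc' 0
        have e1 := hc' 1
        simp only [hg₁] at e0 e1
        rw [e0, e1]
        simp
      have := congrArg (fun z : EuclideanSpace ℂ (Fin 2) => z 0) (hinj this)
      simp at this
    · exact h
  have hn : Set.range g₁ ∈ 𝓝 (g₂ 0) := hopen.isOpen_range.mem_nhds ⟨0, rfl⟩
  have hev : ∀ᶠ w in 𝓝 (0 : ℂ), g₂ w ∈ Set.range g₁ := d₂.continuous.continuousAt hn
  have hev' : ∀ᶠ w in 𝓝[≠] (0 : ℂ), g₂ w ∈ Set.range g₁ := hev.filter_mono nhdsWithin_le_nhds
  obtain ⟨w', ⟨w, hw⟩, hw'⟩ := (hev'.and self_mem_nhdsWithin).exists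
  exact hw' (hmeet w w' hw)

end Pool.Agent.P.MP_cc4673_an
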